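import Pool.Agent.H47.PL.Targets
import Pool.Agent.H4.RKS.MED

/-!
# Row MDD of the board `pln_modules` (MP_c62aed_lc): a line of medium strength
-/

set_option autoImplicit false

open Finset Pool.Agent.H97.RK Pool.Agent.H47.PL Pool.Agent.H4.RKS

namespace Pool.Agent.H4.PLN

theorem pf_MDD (hFIX : T_FIX) (hTRS : T_TRS) : T_MDD := by
  classical
  intro n k m F j t d e s₀ hP S line rule hC y A W J hSt r hr hf hvs
  rcases Nat.eq_zero_or_pos n with hn | hn
  · subst hn
    exact ⟨r, hr, y, fun _ _ => rfl, hf, Nat.zero_le _⟩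
  have hQr : ∀ J' : Finset (Fin m), J'.card ≤ 2 * t → G F y A (line r) J' := by
    intro J' hJ'
    obtain ⟨y', a1, a2, -⟩ := hFIX n k m F j s₀ hP.x1 y (A ∪ W) ⟨0, hn⟩
      (J'.filter fun c => Al F y A c ∧ c ∉ J)
      ((card_filter_le _ _).trans (hJ'.trans hP.ts)) (fun c hc => by
        obtain ⟨-, b1, b2⟩ := mem_filter.1 hc
        refine (hSt.out c b2 b1).trans_le (card_le_card ?_)
        intro i hi
        obtain ⟨-, hi⟩ := mem_filter.1 hi
        exact mem_filter.2 ⟨mem_univ _, fun h => hi (mem_of_mem_erase h)⟩)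
    refine ⟨y', fun u hu => a1 u (mem_union_left _ hu), fun l hl => ?_, fun c hc => ?_⟩
    · have h1 : l.1 ∈ A := hvs (mem_image_of_mem _ hl)
      rw [a1 _ (mem_union_left _ h1)]
      exact hf l hl
    · by_cases hcJ : c ∈ J
      · obtain ⟨i, hi, hi2⟩ := hSt.sat c hcJ
        exact ⟨i, mem_univ _, by rw [a1 _ hi, hi2]⟩
      · by_cases hcA : Al F y A c
        · obtain ⟨i, -, hi⟩ := a2 c (mem_filter.2 ⟨hc, hcA, hcJ⟩)
          exact ⟨i, mem_univ _, hi⟩
        · unfold Al at hcA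
          push Not at hcA
          obtain ⟨i, hi, hi2⟩ := hcA
          exact ⟨i, mem_univ _, by rw [a1 _ (mem_union_left _ hi), hi2]⟩
  have hex : ∃ i, ∀ J' : Finset (Fin m), J'.card ≤ 2 * t → G F y A (line i) J' := ⟨r, hQr⟩
  obtain ⟨i, hi⟩ : ∃ i, i = Nat.find hex := ⟨_, rfl⟩
  have hQi := Nat.find_spec hex
  have hmin : ∀ a, a < i → ¬ ∀ J' : Finset (Fin m), J'.card ≤ 2 * t → G F y A (line a) J' := by
    intro a ha
    rw [hi] at ha
    exact Nat.find_min hex ha
  have hir : i ≤ r := by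
    rw [hi]
    exact Nat.find_le hQr
  rw [← hi] at hQi
  have hiS : i < S := by omega
  have hcor := hC i hiS
  cases hrule : rule i with
  | ax =>
    rw [hrule] at hcor
    obtain ⟨c, hc⟩ := hcor
    obtain ⟨z, -, b2, b3⟩ := hQi {c} (by rw [card_singleton]; have := hP.t1; omega)
    obtain ⟨i0, -, hi0⟩ := b3 c (mem_singleton_self c)
    exact absurd hi0 (b2 (F c i0) (hc (mem_image_of_mem _ (mem_univ i0))))
  | weak a =>
    rw [hrule] at hcor
    obtain ⟨ha, hsub⟩ := hcor
    exfalso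
    refine hmin a ha fun J' hJ' => ?_
    obtain ⟨z, b1, b2, b3⟩ := hQi J' hJ'
    exact ⟨z, b1, fun l hl => b2 l (hsub hl), b3⟩
  | res x a b =>
    rw [hrule] at hcor
    obtain ⟨ha, hb, hsa, hsb⟩ := hcor
    obtain ⟨Ja, ja1, ja2, ja3⟩ := exmin F y A (line a) (2 * t) (hmin a ha)
    obtain ⟨Jb, jb1, jb2, jb3⟩ := exmin F y A (line b) (2 * t) (hmin b hb)
    by_cases hab : Ja.card + Jb.card ≤ 2 * t
    · exfalso
      obtain ⟨z, b1, b2, b3⟩ := hQi (Ja ∪ Jb) ((card_union_le _ _).trans hab)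
      cases hzx : z x with
      | false =>
        refine ja2 ⟨z, b1, fun l hl => ?_, fun c hc => b3 c (mem_union_left _ hc)⟩
        rcases mem_insert.1 (hsa hl) with h | h
        · rw [h, hzx]
          exact Bool.false_ne_true
        · exact b2 l h
      | true =>
        refine jb2 ⟨z, b1, fun l hl => ?_, fun c hc => b3 c (mem_union_right _ hc)⟩
        rcases mem_insert.1 (hsb hl) with h | h
        · rw [h, hzx]
          exact Bool.false_ne_true.symm
        · exact b2 l h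
    · rcases Nat.lt_or_ge t Ja.card with h | h
      · obtain ⟨z, c1, c2, c3⟩ := med_core F hP hTRS y A (line a) Ja h ja1 ja2 ja3
        exact ⟨a, by omega, z, c1, c2, c3⟩
      · obtain ⟨z, c1, c2, c3⟩ := med_core F hP hTRS y A (line b) Jb (by omega) jb1 jb2 jb3
        exact ⟨b, by omega, z, c1, c2, c3⟩

end Pool.Agent.H4.PLN
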