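import Pool.Agent.H47.PL.Targets2

set_option autoImplicit false

/-!
# MP_c62aed_lc, board pln_modules: row WM2
-/

namespace Pool.Agent.H4.PLN

open Finset Pool.Agent.H97.RK Pool.Agent.H47.PL

open Classical in
theorem wm2_aux {X : Type} [Fintype X] (Ω : Finset X) (p p' : X → Prop) (s R : ℝ)
    (hs : 0 < s) (hpp : ∀ x, p' x → p x)
    (h : s * ((Ω.filter p).card : ℝ) + s * R * ((Ω.filter p').card : ℝ) ≤ (Ω.filter p).card) :
    ∑ x ∈ Ω, (if p' x then s * R else if p x then s else 1) ≤ (Ω.card : ℝ) := by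
  have h1 : ∀ x, (if p' x then s * R else if p x then s else (1 : ℝ)) =
      1 - (if p x then 1 else 0) + s * (if p x then 1 else 0) - s * (if p' x then 1 else 0) +
        s * R * (if p' x then 1 else 0) := by
    intro x
    by_cases h2 : p' x
    · have h3 := hpp x h2
      rw [if_pos h2, if_pos h3, if_pos h2]
      ring
    · rw [if_neg h2, if_neg h2]
      by_cases h3 : p x
      · rw [if_pos h3, if_pos h3]
        ring
      · rw [if_neg h3, if_neg h3]
        ring
  rw [Finset.sum_congr rfl fun x _ => h1 x]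
  rw [Finset.sum_add_distrib, Finset.sum_sub_distrib, Finset.sum_add_distrib,
    Finset.sum_sub_distrib, ← Finset.mul_sum, ← Finset.mul_sum, ← Finset.mul_sum,
    Finset.sum_boole, Finset.sum_boole]
  have h2 : (∑ x ∈ Ω, (1 : ℝ)) = Ω.card := by simp
  rw [h2]
  have h3 : 0 ≤ s * ((Ω.filter p').card : ℝ) := by positivity
  linarith

open Classical in
theorem pf_WM2 : T_WM2 := by
  intro X _ m w Γ' Ω p p' s R hs hs1 hR hsR hpp h
  set wt : X → ℝ := fun x => if p' x then s * R else if p x then s else 1 with hwt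
  have hwt0 : ∀ x, 0 ≤ wt x := by
    intro x
    rw [hwt]
    dsimp only
    split_ifs
    · positivity
    · exact hs.le
    · exact zero_le_one
  have hsum : ∑ x ∈ Ω, wt x ≤ (Ω.card : ℝ) := wm2_aux Ω p p' s R hs hpp h
  have hsum0 : 0 ≤ ∑ x ∈ Ω, wt x := Finset.sum_nonneg fun x _ => hwt0 x
  have hprod : ∀ F : Fin m → X, ∏ c, wt (F c) =
      s ^ (univ.filter fun c => p (F c)).card * R ^ (univ.filter fun c => p' (F c)).card := by
    intro F
    have h1 : ∀ c, wt (F c) = (if p (F c) then s else 1) * (if p' (F c) then R else 1) := by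
      intro c
      rw [hwt]
      dsimp only
      by_cases h2 : p' (F c)
      · rw [if_pos h2, if_pos h2, if_pos (hpp _ h2)]
      · rw [if_neg h2, if_neg h2, mul_one]
    rw [Finset.prod_congr rfl fun c _ => h1 c, Finset.prod_mul_distrib, Finset.prod_ite,
      Finset.prod_ite]
    simp only [Finset.prod_const, one_pow, mul_one]
  have hpow : (∑ x ∈ Ω, wt x) ^ m = ∑ F ∈ Fintype.piFinset (fun _ : Fin m => Ω),
      ∏ c, wt (F c) := by
    rw [← Finset.prod_univ_sum]
    simp
  have hev : ∀ F ∈ (univ.filter fun F : Fin m → X => (∀ c, F c ∈ Ω) ∧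
      w ≤ (univ.filter fun c => p (F c)).card ∧
      (univ.filter fun c => p (F c)).card < Γ' * (univ.filter fun c => p' (F c)).card),
      (1 : ℝ) ≤ s ^ w * ∏ c, wt (F c) := by
    intro F hF
    rw [Finset.mem_filter] at hF
    obtain ⟨_, _, h1, h2⟩ := hF
    rw [hprod]
    set V := (univ.filter fun c => p (F c)).card with hV
    set E := (univ.filter fun c => p' (F c)).card with hE
    have h3 : (1 : ℝ) ≤ s ^ (2 * Γ' * E) * R ^ E := by
      have h4 : s ^ (2 * Γ' * E) * R ^ E = (s ^ (2 * Γ') * R) ^ E := by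
        rw [mul_pow, ← pow_mul]
      rw [h4]
      exact one_le_pow₀ hsR
    have h5 : s ^ (2 * Γ' * E) ≤ s ^ (V + V) := by
      apply pow_le_pow_of_le_one hs.le hs1
      nlinarith
    have h6 : s ^ (V + V) ≤ s ^ (w + V) := by
      apply pow_le_pow_of_le_one hs.le hs1
      omega
    have h7 : 0 ≤ R ^ E := by positivity
    calc (1 : ℝ) ≤ s ^ (2 * Γ' * E) * R ^ E := h3
      _ ≤ s ^ (w + V) * R ^ E := mul_le_mul_of_nonneg_right (h5.trans h6) h7
      _ = s ^ w * (s ^ V * R ^ E) := by rw [pow_add]; ring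
  have hsub : (univ.filter fun F : Fin m → X => (∀ c, F c ∈ Ω) ∧
      w ≤ (univ.filter fun c => p (F c)).card ∧
      (univ.filter fun c => p (F c)).card < Γ' * (univ.filter fun c => p' (F c)).card) ⊆
      Fintype.piFinset (fun _ : Fin m => Ω) := by
    intro F hF
    rw [Finset.mem_filter] at hF
    rw [Fintype.mem_piFinset]
    exact hF.2.1
  calc _ = ∑ F ∈ (univ.filter fun F : Fin m → X => (∀ c, F c ∈ Ω) ∧
      w ≤ (univ.filter fun c => p (F c)).card ∧
      (univ.filter fun c => p (F c)).card < Γ' * (univ.filter fun c => p' (F c)).card),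
      (1 : ℝ) := by simp
    _ ≤ ∑ F ∈ (univ.filter fun F : Fin m → X => (∀ c, F c ∈ Ω) ∧
      w ≤ (univ.filter fun c => p (F c)).card ∧
      (univ.filter fun c => p (F c)).card < Γ' * (univ.filter fun c => p' (F c)).card),
      s ^ w * ∏ c, wt (F c) := Finset.sum_le_sum hev
    _ ≤ ∑ F ∈ Fintype.piFinset (fun _ : Fin m => Ω), s ^ w * ∏ c, wt (F c) := by
      apply Finset.sum_le_sum_of_subset_of_nonneg hsub
      intro F _ _
      exact mul_nonneg (by positivity) (Finset.prod_nonneg fun c _ => hwt0 _)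
    _ = s ^ w * (∑ x ∈ Ω, wt x) ^ m := by rw [hpow, Finset.mul_sum]
    _ ≤ s ^ w * (Ω.card : ℝ) ^ m := by
      apply mul_le_mul_of_nonneg_left _ (by positivity)
      exact pow_le_pow_left₀ hsum0 hsum m

end Pool.Agent.H4.PLN
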