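import Pool.Agent.H47.PL.Targets2
import Pool.Agent.H32.PLN.OSC

set_option autoImplicit false

/-!
# MP_c62aed_lc, board pln_modules: row WVC
-/

namespace Pool.Agent.H4.PLN

open Finset Pool.Agent.H97.RK Pool.Agent.H47.PL Pool.Agent.H32.PLN

theorem vi_iff {n k : ℕ} (y : Fin n → Bool) (g : Fin k → Fin n × Bool) :
    Vi y g ↔ ∀ i, (g i).2 = !(y (g i).1) := by
  unfold Vi
  exact forall_congr' fun i => bne_iff _ _

theorem xc_congr {n k : ℕ} (α : ℝ) (D : Finset (Fin n)) (g h : Fin k → Fin n × Bool)
    (hgh : ∀ i, (g i).1 = (h i).1) : Xc α D g ↔ Xc α D h := by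
  unfold Xc
  have h1 : (univ.filter fun i => (g i).1 ∈ D) = (univ.filter fun i => (h i).1 ∈ D) := by
    apply Finset.filter_congr
    intro i _
    rw [hgh i]
  rw [h1]

open Classical in
theorem card_xc (n k : ℕ) (α : ℝ) (D : Finset (Fin n)) (y : Fin n → Bool) :
    ((Om n k).filter fun g => Vi y g ∧ Xc α D g).card * 2 ^ k =
      ((Om n k).filter (Xc α D)).card := by
  have h0 : Fintype.card (Fin k → Bool) = 2 ^ k := by simp
  rw [← h0, ← Finset.card_univ, ← Finset.card_product]
  refine Finset.card_bij' (fun p _ => fun i => ((p.1 i).1, p.2 i))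
    (fun h _ => (fun i => ((h i).1, !(y (h i).1)), fun i => (h i).2)) ?_ ?_ ?_ ?_
  · intro p hp
    rw [Finset.mem_product, Finset.mem_filter, mem_Om] at hp
    rw [Finset.mem_filter, mem_Om]
    exact ⟨hp.1.1, (xc_congr α D p.1 _ (fun i => rfl)).1 hp.1.2.2⟩
  · intro h hh
    rw [Finset.mem_filter, mem_Om] at hh
    rw [Finset.mem_product, Finset.mem_filter, mem_Om]
    exact ⟨⟨hh.1, (vi_iff y _).2 (fun i => rfl), (xc_congr α D h _ (fun i => rfl)).1 hh.2⟩,
      Finset.mem_univ _⟩
  · intro p hp
    rw [Finset.mem_product, Finset.mem_filter] at hp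
    have h1 := (vi_iff y _).1 hp.1.2.1
    refine Prod.ext ?_ rfl
    funext i
    exact Prod.ext rfl (h1 i).symm
  · intro h _
    rfl

theorem pf_WVC (hWTL : T_WTL) : T_WVC := by
  classical
  intro n k α D y σ hn hk hα hα1
  have h1 : (Om n k).filter (Vi y) = Fs n k y univ := by
    ext g
    rw [mem_filter, mem_Fs, vi_iff]
    simp only [mem_univ, true_and]
  have h2 : (Fs n k y univ).card = n.descFactorial k := by
    rw [card_Fs, card_univ, Fintype.card_fin]
  refine ⟨by rw [h1, h2], ?_, ?_⟩
  · have h3 : (univ.filter fun u => y u = σ u).card = n - dst y σ := by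
      have h4 := card_filter_add_card_filter_not (s := (univ : Finset (Fin n)))
        (fun u => y u = σ u)
      rw [card_univ, Fintype.card_fin] at h4
      have h5 : (univ.filter fun u => ¬ y u = σ u).card = dst y σ := by
        unfold dst
        rfl
      omega
    have h4 : (Os n k σ).filter (Vi y) =
        Fs n k y univ \ Fs n k y (univ.filter fun u => y u = σ u) := by
      ext g
      unfold Os
      rw [mem_filter, mem_filter, mem_sdiff, mem_Fs, mem_Fs, vi_iff]
      simp only [mem_univ, true_and, mem_filter]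
      constructor
      · rintro ⟨⟨h5, i, hi⟩, h6⟩
        refine ⟨⟨h5, h6⟩, ?_⟩
        rintro ⟨_, h7⟩
        have h8 := (h7 i).1
        rw [h6 i, h8] at hi
        cases hc : σ (g i).1 <;> rw [hc] at hi <;> simp at hi
      · rintro ⟨⟨h5, h6⟩, h7⟩
        refine ⟨⟨h5, ?_⟩, h6⟩
        by_contra hcon
        push Not at hcon
        apply h7
        refine ⟨h5, fun i => ⟨?_, h6 i⟩⟩
        have h8 := hcon i
        rw [h6 i] at h8
        cases hc : σ (g i).1 <;> cases hd : y (g i).1 <;> rw [hc, hd] at h8 <;> simp_all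
    have hsub : Fs n k y (univ.filter fun u => y u = σ u) ⊆ Fs n k y univ := by
      intro g hg
      rw [mem_Fs] at hg ⊢
      exact ⟨hg.1, fun i => ⟨mem_univ _, (hg.2 i).2⟩⟩
    rw [h4, ← h3, ← card_Fs n k y (univ.filter fun u => y u = σ u), ← h2]
    exact card_sdiff_add_card_eq_card hsub
  · have h3 := hWTL n k α D hn hk hα hα1
    have h4 := card_xc n k α D y
    have h5 : ((Om n k).card : ℝ) = 2 ^ k * n.descFactorial k := by
      rw [card_Om]
      push_cast
      ring
    have h6 : (((Om n k).filter (Xc α D)).card : ℝ) =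
        (((Om n k).filter fun g => Vi y g ∧ Xc α D g).card : ℝ) * 2 ^ k := by
      rw [← h4]
      push_cast
      ring
    rw [h6, h5] at h3
    have h7 : (0 : ℝ) < 2 ^ k := by positivity
    have h8 : Real.exp (-(α ^ 2 * k / 4)) * (2 ^ k * (n.descFactorial k : ℝ)) =
        (Real.exp (-(α ^ 2 * k / 4)) * n.descFactorial k) * 2 ^ k := by ring
    rw [h8] at h3
    exact le_of_mul_le_mul_right h3 h7

end Pool.Agent.H4.PLN
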